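import Mathlib

namespace Pool.Agent.Results.MP_5790d7_co.NotUnsecable

/-- `A ≤ B`: the chain `A` embeds in the chain `B`. -/
def Emb (A B : Type) [LinearOrder A] [LinearOrder B] : Prop :=
  ∃ f : A → B, StrictMono f

/-- `A < B`: `A ≤ B` but not `B ≤ A`. -/
def EmbLt (A B : Type) [LinearOrder A] [LinearOrder B] : Prop := Emb A B ∧ ¬ Emb B A

/-- `A` is unsecable: whenever `A = B + C` (i.e. `A` is order isomorphic to the ordered sum of
`B` and `C`, with `C` after `B`), `A` embeds in `B` or in `C`. -/
def Unsecable (A : Type) [LinearOrder A] : Prop :=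
  ∀ (B C : Type) [LinearOrder B] [LinearOrder C], Nonempty (A ≃o (B ⊕ₗ C)) → Emb A B ∨ Emb A C

/-- `X + X < A` for every initial interval `X` of `A` with `X < A`. -/
def DoublingInitial (A : Type) [LinearOrder A] : Prop :=
  ∀ X : Set A, (∀ x ∈ X, ∀ y, y < x → y ∈ X) → EmbLt X A → EmbLt (X ⊕ₗ X) A

/-- the chain `1 + ω*` -/
abbrev A₀ : Type := Unit ⊕ₗ ℕᵒᵈ

open Sum.Lex in
theorem doubling : DoublingInitial A₀ := by
  intro X hX hlt
  -- `X` contains no element of the `ω*` part
  have hno : ∀ k : ℕᵒᵈ, (toLex (Sum.inr k) : A₀) ∉ X := by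
    intro k hk
    apply hlt.2
    have hl : (toLex (Sum.inl ()) : A₀) ∈ X := hX _ hk _ (Sum.Lex.inl_lt_inr _ _)
    have hr : ∀ m : ℕ, (toLex (Sum.inr (OrderDual.toDual (m + OrderDual.ofDual k))) : A₀) ∈ X := by
      intro m
      rcases Nat.eq_zero_or_pos m with rfl | hm
      · simpa using hk
      · refine hX _ hk _ ?_
        rw [Sum.Lex.inr_lt_inr_iff]
        show OrderDual.toDual (m + OrderDual.ofDual k) < k
        rw [← OrderDual.ofDual_lt_ofDual]
        simp [hm]
    refine ⟨fun a => match ofLex a with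
      | Sum.inl _ => ⟨_, hl⟩
      | Sum.inr m => ⟨_, hr (OrderDual.ofDual m)⟩, ?_⟩
    intro a b hab
    rcases a with a | a <;> rcases b with b | b
    · exact absurd ((Sum.Lex.inl_lt_inl_iff).mp hab) (lt_irrefl _)
    · exact Sum.Lex.inl_lt_inr _ _
    · exact absurd hab (Sum.Lex.not_inr_lt_inl)
    · have h1 : a < b := (Sum.Lex.inr_lt_inr_iff).mp hab
      have h2 : OrderDual.ofDual b < OrderDual.ofDual a := h1
      apply Subtype.mk_lt_mk.mpr
      rw [Sum.Lex.inr_lt_inr_iff]
      show OrderDual.ofDual b + OrderDual.ofDual k < OrderDual.ofDual a + OrderDual.ofDual k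
      omega
  have hsub : Subsingleton X := by
    constructor
    rintro ⟨a, ha⟩ ⟨b, hb⟩
    rcases a with a | a <;> rcases b with b | b
    · rfl
    · exact absurd hb (hno b)
    · exact absurd ha (hno a)
    · exact absurd ha (hno a)
  constructor
  · refine ⟨fun s => match ofLex s with
      | Sum.inl _ => toLex (Sum.inl ())
      | Sum.inr _ => toLex (Sum.inr (OrderDual.toDual 0)), ?_⟩
    intro a b hab
    rcases a with a | a <;> rcases b with b | b
    · have h1 := (Sum.Lex.inl_lt_inl_iff).mp hab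
      exact absurd (Subsingleton.elim a b) h1.ne
    · exact Sum.Lex.inl_lt_inr _ _
    · exact absurd hab (Sum.Lex.not_inr_lt_inl)
    · have h1 := (Sum.Lex.inr_lt_inr_iff).mp hab
      exact absurd (Subsingleton.elim a b) h1.ne
  · rintro ⟨f, hf⟩
    have : Finite (X ⊕ₗ X) := by
      show Finite (X ⊕ X)
      infer_instance
    have hfin : Finite A₀ := Finite.of_injective f hf.injective
    have : Finite ℕ := Finite.of_injective
      (fun m : ℕ => (toLex (Sum.inr (OrderDual.toDual m)) : A₀)) (by
        intro m n h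
        simpa using h)
    exact not_finite ℕ

theorem not_unsecable : ¬ Unsecable A₀ := by
  intro h
  rcases h Unit ℕᵒᵈ ⟨OrderIso.refl _⟩ with ⟨f, hf⟩ | ⟨f, hf⟩
  · have h1 : f (toLex (Sum.inl ())) < f (toLex (Sum.inr (OrderDual.toDual 0))) :=
      hf (Sum.Lex.inl_lt_inr _ _)
    exact absurd (Subsingleton.elim _ _) h1.ne
  · have h1 : ∀ m : ℕ, OrderDual.ofDual (f (toLex (Sum.inr (OrderDual.toDual m)))) <
        OrderDual.ofDual (f (toLex (Sum.inl ()))) := fun m =>
      hf (Sum.Lex.inl_lt_inr _ _)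
    have h2 : ∀ m : ℕ, m ≤ OrderDual.ofDual (f (toLex (Sum.inr (OrderDual.toDual m)))) := by
      have hmono : StrictMono fun m : ℕ =>
          OrderDual.ofDual (f (toLex (Sum.inr (OrderDual.toDual m)))) := by
        intro m n hmn
        have : f (toLex (Sum.inr (OrderDual.toDual n))) < f (toLex (Sum.inr (OrderDual.toDual m))) :=
          hf ((Sum.Lex.inr_lt_inr_iff).mpr hmn)
        exact this
      exact fun m => hmono.id_le m
    have h3 := h1 (OrderDual.ofDual (f (toLex (Sum.inl ()))))
    have h4 := h2 (OrderDual.ofDual (f (toLex (Sum.inl ()))))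
    omega

/-- A countable chain `A` with `X + X < A` for every initial interval `X < A` need not be
unsecable. -/
theorem result : ∃ (A : Type) (_ : LinearOrder A), Countable A ∧ DoublingInitial A ∧
    ¬ Unsecable A := by
  refine ⟨A₀, inferInstance, ?_, doubling, not_unsecable⟩
  show Countable (Unit ⊕ ℕ)
  infer_instance

end Pool.Agent.Results.MP_5790d7_co.NotUnsecable
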